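import Pool.Agent.Helper28.MT.Goals

/-!
# Project MT (MP_bb782b_co), packet U: the level sets come from few patterns
-/

set_option autoImplicit false

namespace Pool.Agent.Helper41.MT

open Finset
open Pool.Agent.Helper55.Rota Pool.Agent.Helper28.MT

/-- the small values of a monotone function are an initial segment -/
lemma seg {n : ℕ} (f : Fin n → ℕ) (hf : Monotone f) (m : ℕ) (j : Fin n) :
    f j < m ↔ j.val < (univ.filter (fun i : Fin n => f i < m)).card := by
  constructor
  · intro h
    have h1 : Finset.Iic j ⊆ univ.filter (fun i : Fin n => f i < m) := by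
      intro i hi
      rw [Finset.mem_Iic] at hi
      exact mem_filter.mpr ⟨mem_univ _, lt_of_le_of_lt (hf hi) h⟩
    have h2 := card_le_card h1
    rw [Fin.card_Iic] at h2
    omega
  · intro h
    by_contra h0
    have h1 : univ.filter (fun i : Fin n => f i < m) ⊆ Finset.Iio j := by
      intro i hi
      rw [Finset.mem_Iio]
      by_contra h2
      exact h0 (lt_of_le_of_lt (hf (not_lt.mp h2)) (mem_filter.mp hi).2)
    have h2 := card_le_card h1
    rw [Fin.card_Iio] at h2
    omega

theorem mt_u : G_U := by
  intro α _ _ R n b S c T y v c0 hR hO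
  obtain ⟨-, hb, hr, hcl, -, -, hlev⟩ := hO
  -- the number of elements
  have hT : T.card = n := by
    have h1 := card_eq_sum_card_fiberwise (f := b) (s := T) (t := univ)
      (fun x _ => by simp)
    rw [h1, sum_congr rfl fun i _ => hb i]
    simp
  have hTr : T.card ≤ R.r T := by rw [hT, hr]
  -- the enumeration
  let e0 : Fin n ≃ T := (Fintype.equivFinOfCardEq (by rw [Fintype.card_coe, hT])).symm
  let σ : Equiv.Perm (Fin n) := Tuple.sort (fun i => v (e0 i).1)
  let e : Fin n → α := fun i => (e0 (σ i)).1
  have hmono : Monotone (fun i => v (e i)) := Tuple.monotone_sort (fun i => v (e0 i).1)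
  have hrange : ∀ x, x ∈ T ↔ ∃ i, e i = x := by
    intro x
    constructor
    · intro hx
      refine ⟨σ.symm (e0.symm ⟨x, hx⟩), ?_⟩
      show (e0 (σ (σ.symm (e0.symm ⟨x, hx⟩)))).1 = x
      rw [Equiv.apply_symm_apply, Equiv.apply_symm_apply]
    · rintro ⟨i, rfl⟩
      exact (e0 (σ i)).2
  let g : Fin n → Fin (n + 1) := fun i =>
    if c0 < y i then ⟨(univ.filter (fun j : Fin n => v (e j) < y i - c0)).card, by
      have := card_le_univ (univ.filter (fun j : Fin n => v (e j) < y i - c0))
      rw [Fintype.card_fin] at this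
      omega⟩ else 0
  refine ⟨e, g, ?_⟩
  ext x
  unfold Ufam
  rw [mem_filter, mem_filter]
  simp only [mem_univ, true_and]
  by_cases hx : c0 < y (b x)
  · have hg : (g (b x)).val = (univ.filter (fun j : Fin n => v (e j) < y (b x) - c0)).card := by
      show (if c0 < y (b x) then _ else _ : Fin (n + 1)).val = _
      rw [if_pos hx]
    have himg : (univ.filter (fun j : Fin n => (g (b x)).val ≤ j.val)).image e =
        T ∩ lev v (y (b x) - c0) := by
      ext z
      rw [mem_image, mem_inter, mem_lev]
      constructor
      · rintro ⟨j, hj, rfl⟩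
        refine ⟨(hrange _).mpr ⟨j, rfl⟩, ?_⟩
        have h1 := (mem_filter.mp hj).2
        rw [hg] at h1
        have h2 := (seg (fun i => v (e i)) hmono (y (b x) - c0) j).not.mpr (not_lt.mpr h1)
        exact not_lt.mp h2
      · rintro ⟨hz, hz2⟩
        obtain ⟨j, rfl⟩ := (hrange z).mp hz
        refine ⟨j, mem_filter.mpr ⟨mem_univ _, ?_⟩, rfl⟩
        rw [hg]
        exact not_lt.mp ((seg (fun i => v (e i)) hmono (y (b x) - c0) j).not.mp (not_lt.mpr hz2))
    have hclo : cl R (T ∩ lev v (y (b x) - c0)) = lev v (y (b x) - c0) := by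
      apply cl_eq (hcl _) inter_subset_right
      rw [indep_sub hTr inter_subset_left, hlev]
    rw [himg, hclo, mem_lev]
    omega
  · have hg : (g (b x)).val = 0 := by
      show (if c0 < y (b x) then _ else _ : Fin (n + 1)).val = _
      rw [if_neg hx]
      rfl
    have himg : (univ.filter (fun j : Fin n => (g (b x)).val ≤ j.val)).image e = T := by
      ext z
      rw [mem_image, hrange]
      constructor
      · rintro ⟨j, _, rfl⟩
        exact ⟨j, rfl⟩
      · rintro ⟨j, rfl⟩
        exact ⟨j, mem_filter.mpr ⟨mem_univ _, by rw [hg]; exact Nat.zero_le _⟩, rfl⟩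
    have hclo : cl R T = univ := cl_full (by rw [hR, hr])
    rw [himg, hclo]
    constructor
    · intro h
      omega
    · intro h
      exact absurd (mem_univ x) h

end Pool.Agent.Helper41.MT
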